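import Mathlib
import Pool.Agent.Helper48.EntFinal

set_option autoImplicit false

open Pool.Agent.Helper48.CommonValue

namespace Pool.Agent.Results.MP_d0f9b4_an.SmallProducts

/-- Positive answer to Q1: for every non-monomial entire `f` and every admissible `T`, each
connected component of `I \ T` contains points `(s, a)` with `|s|` arbitrarily small. -/
theorem result :
    ∀ f : ℂ → ℂ, Differentiable ℂ f → ¬ IsMonomial f →
      ∀ T : Set (ℂ × ℂ), Admissible f T →
        ∀ x ∈ commonImage f \ T, ∀ η : ℝ, 0 < η →
          ∃ p ∈ connectedComponentIn (commonImage f \ T) x, ‖p.1‖ < η ^ 2 := by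
  intro f hf hfm T hT x hx η hη
  exact Pool.Agent.Helper48.Ent.main hf hfm hT.1 hx (by positivity)

end Pool.Agent.Results.MP_d0f9b4_an.SmallProducts
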